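import Pool.Agent.Helper14.CV.StB

set_option autoImplicit false

namespace Pool.Agent.Helper38.CV

open Pool.Agent.Helper14.CV

private theorem far_coprime {R : Type} [AddCommGroup R] (G : ℤ → ℤ → R) (hG : Homog G)
    (h : ∀ a b c d : ℤ, a * d - b * c = 1 → G a c = G b d) :
    ∀ (n : ℕ) (p q : ℤ), q = n → 0 < q → IsCoprime p q → G p q = G 1 0 := by
  intro n
  induction n using Nat.strong_induction_on with
  | _ n ih =>
    intro p q hqn hq hpq
    obtain ⟨u, v, huv⟩ := hpq
    set q' : ℤ := u % q with hq'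
    set p' : ℤ := -(u / q * p + v) with hp'
    have hdiv : u = q' + q * (u / q) := (Int.emod_add_mul_ediv u q).symm
    have hdet : p * q' - p' * q = 1 := by
      have e : p * q' - p' * q = (q' + q * (u / q)) * p + v * q := by rw [hp']; ring
      rw [e, ← hdiv, huv]
    have h1 : G p q = G p' q' := h p p' q q' hdet
    have hq0 : 0 ≤ q' := Int.emod_nonneg u hq.ne'
    have hqlt : q' < q := Int.emod_lt_of_pos u hq
    rw [h1]
    rcases hq0.eq_or_lt with h0 | h0
    · have h2 : p' * q = -1 := by
        rw [← h0] at hdet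
        linarith
      have hq1 : q = 1 := by
        have h3 : IsUnit q := IsUnit.of_mul_eq_one (-p') (by linarith)
        rcases Int.isUnit_iff.1 h3 with h4 | h4
        · exact h4
        · omega
      have hp1 : p' = -1 := by
        rw [hq1, mul_one] at h2
        exact h2
      have h3 := hG (-1) 1 0 (by norm_num) (Or.inl one_ne_zero)
      rw [mul_one, mul_zero] at h3
      rw [← h0, hp1, h3]
    · refine ih q'.toNat (by omega) p' q' (by omega) h0 ⟨-q, p, ?_⟩
      linarith

theorem hFar : StFar := by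
  intro R _ G hG h
  refine ⟨G 1 0, fun p q hpq => ?_⟩
  rw [Pi.zero_apply, Pi.zero_apply, zero_add]
  rcases eq_or_ne q 0 with rfl | hq
  · have hp : p ≠ 0 := by
      rcases hpq with h1 | h1
      · exact h1
      · exact absurd rfl h1
    have h2 := hG p 1 0 hp (Or.inl one_ne_zero)
    rw [mul_one, mul_zero] at h2
    exact h2
  · have hg : (Int.gcd p q : ℤ) ≠ 0 := by
      rw [Ne, Int.natCast_eq_zero, Int.gcd_eq_zero_iff]
      tauto
    obtain ⟨g, hgdef⟩ : ∃ g : ℤ, g = (Int.gcd p q : ℤ) * Int.sign q := ⟨_, rfl⟩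
    have hs : Int.sign q * Int.sign q = 1 := by
      rcases lt_or_gt_of_ne hq with h1 | h1
      · rw [Int.sign_eq_neg_one_of_neg h1]; norm_num
      · rw [Int.sign_eq_one_of_pos h1]; norm_num
    have hs0 : Int.sign q ≠ 0 := by
      intro h0
      rw [h0] at hs
      norm_num at hs
    have hg0 : g ≠ 0 := by
      rw [hgdef]
      exact mul_ne_zero hg hs0
    obtain ⟨a, ha⟩ : ∃ a : ℤ, p = (Int.gcd p q : ℤ) * a := Int.gcd_dvd_left p q
    obtain ⟨b, hb⟩ : ∃ b : ℤ, q = (Int.gcd p q : ℤ) * b := Int.gcd_dvd_right p q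
    have hcop : IsCoprime a b := by
      have h3 : (Int.gcd p q : ℤ) * (Int.gcd a b : ℤ) = Int.gcd p q := by
        have h4 : Int.gcd ((Int.gcd p q : ℤ) * a) ((Int.gcd p q : ℤ) * b) =
            (Int.gcd p q) * Int.gcd a b := by
          rw [Int.gcd_mul_left]
          simp
        rw [← ha, ← hb] at h4
        exact_mod_cast h4.symm
      have h5 : (Int.gcd a b : ℤ) = 1 := by
        have h6 : (Int.gcd p q : ℤ) * (Int.gcd a b : ℤ) = (Int.gcd p q : ℤ) * 1 := by
          rw [h3, mul_one]
        exact mul_left_cancel₀ hg h6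
      rw [Int.isCoprime_iff_gcd_eq_one]
      exact_mod_cast h5
    have hp2 : p = g * (Int.sign q * a) := by
      rw [hgdef]
      calc p = (Int.gcd p q : ℤ) * a := ha
        _ = (Int.gcd p q : ℤ) * (Int.sign q * Int.sign q) * a := by rw [hs, mul_one]
        _ = _ := by ring
    have hq2 : q = g * (Int.sign q * b) := by
      rw [hgdef]
      calc q = (Int.gcd p q : ℤ) * b := hb
        _ = (Int.gcd p q : ℤ) * (Int.sign q * Int.sign q) * b := by rw [hs, mul_one]
        _ = _ := by ring
    have hb0 : b ≠ 0 := by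
      rintro rfl
      exact hq (by rw [hb, mul_zero])
    have hpos : 0 < Int.sign q * b := by
      have h7 : 0 < (Int.gcd p q : ℤ) := lt_of_le_of_ne (Int.natCast_nonneg _) (Ne.symm hg)
      rcases lt_or_gt_of_ne hq with h1 | h1
      · rw [Int.sign_eq_neg_one_of_neg h1]
        have : b < 0 := by
          by_contra hcon
          have : 0 ≤ (Int.gcd p q : ℤ) * b := mul_nonneg h7.le (not_lt.1 hcon)
          omega
        omega
      · rw [Int.sign_eq_one_of_pos h1]
        have : 0 < b := by
          by_contra hcon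
          have : (Int.gcd p q : ℤ) * b ≤ 0 := mul_nonpos_of_nonneg_of_nonpos h7.le (not_lt.1 hcon)
          omega
        omega
    have hcop2 : IsCoprime (Int.sign q * a) (Int.sign q * b) := by
      have hu : IsUnit (Int.sign q) := IsUnit.of_mul_eq_one _ hs
      exact (isCoprime_mul_unit_left hu a b).2 hcop
    have h8 := hG g (Int.sign q * a) (Int.sign q * b) hg0 (Or.inr hpos.ne')
    rw [← hp2, ← hq2] at h8
    rw [h8]
    exact far_coprime G hG h (Int.sign q * b).toNat _ _ (by omega) hpos hcop2

end Pool.Agent.Helper38.CV
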