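import Pool.Agent.Helper14.CV.StA

set_option autoImplicit false

namespace Pool.Agent.Helper38.CV

open Pool.Agent.Helper14.CV
open Filter Topology ModularGroup CongruenceSubgroup
open UpperHalfPlane hiding I
open scoped Modular MatrixGroups

private theorem cont_smul (g : SL(2, ℤ)) : Continuous fun z : ℍ => g • z := by
  simp only [sl_moeb]
  fun_prop

theorem hA6a : StA6a := by
  intro N hN u hu hinv hlim ⟨z₁, hz₁⟩
  have hfi : (Gamma0 N).FiniteIndex := inferInstance
  have hfin : Fintype (SL(2, ℤ) ⧸ Gamma0 N) := Subgroup.fintypeQuotientOfFiniteIndex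
  have hev : ∀ᶠ z : ℍ in atImInfty, ∀ q : SL(2, ℤ) ⧸ Gamma0 N, u ((Quotient.out q)⁻¹ • z) < u z₁ := by
    rw [eventually_all]
    intro q
    exact (hlim (Quotient.out q)⁻¹).eventually_lt_const hz₁
  obtain ⟨y, hy⟩ := (atImInfty_mem _).1 hev
  set K : Set ℍ := insert z₁ (⋃ q : SL(2, ℤ) ⧸ Gamma0 N,
    (fun w : ℍ => (Quotient.out q)⁻¹ • w) '' truncatedFundamentalDomain y) with hK
  have hKc : IsCompact K := by
    refine IsCompact.insert (isCompact_iUnion fun q => ?_) _
    exact (isCompact_truncatedFundamentalDomain y).image (cont_smul _)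
  obtain ⟨z₀, -, hmax⟩ := hKc.exists_isMaxOn ⟨z₁, Set.mem_insert _ _⟩ hu.continuousOn
  have h1 : u z₁ ≤ u z₀ := hmax (Set.mem_insert _ _)
  refine ⟨z₀, fun z => ?_⟩
  obtain ⟨g, hg⟩ := exists_smul_mem_fd z
  set q : SL(2, ℤ) ⧸ Gamma0 N := QuotientGroup.mk g with hq
  have hmem : (Quotient.out q)⁻¹ * g ∈ Gamma0 N := by
    rw [← QuotientGroup.eq]
    exact QuotientGroup.out_eq' q
  have hz : u z = u ((Quotient.out q)⁻¹ • (g • z)) := by
    rw [← mul_smul]
    exact (hinv _ hmem z).symm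
  rw [hz]
  rcases le_total y (g • z).im with h | h
  · exact ((hy _ h q).le).trans h1
  · refine hmax (Set.mem_insert_of_mem _ ?_)
    exact Set.mem_iUnion.2 ⟨q, ⟨g • z, ⟨hg, h⟩, rfl⟩⟩

end Pool.Agent.Helper38.CV
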