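import Pool.Agent.Helper14.CV.StD

set_option autoImplicit false

namespace Pool.Agent.Helper38.CV

open Pool.Agent.Helper14.CV

private theorem dbl {M : Type*} [AddCommGroup M] [Module (ZMod 2) M] (x : M) : x + x = 0 :=
  ZModModule.add_self x

theorem hLed (hLow0 : StLow0) (hGrp : StGrp) (hLowA : StLowA) (hBb : StBb) (hSur : StSur) :
    StLed := by
  intro r s al be hal1 hal hbe
  obtain ⟨lmul, ladd, lmono, wmono, -, ldx, ldy, -, -, -, -, -, -⟩ := hLow0 r s
  obtain ⟨-, gB, -, gB0, -, -⟩ := hGrp r s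
  obtain ⟨lz, lA1, lB1, -, -⟩ := hLowA r s
  obtain ⟨b1, b2, b3, -, b5, -⟩ := hBb r s
  -- the operator `opB (-1) + 1 + dy`
  have hinv : (opB (-1) * opB 1 : Module.End (ZMod 2) (Fn (2 ^ r) (2 ^ s))) = 1 := by
    rw [gB]
    exact gB0
  obtain ⟨S, hS⟩ : ∃ S : Module.End (ZMod 2) (Fn (2 ^ r) (2 ^ s)), S = opB (-1) + 1 + dy := ⟨_, rfl⟩
  obtain ⟨R, hR⟩ : ∃ R : Module.End (ZMod 2) (Fn (2 ^ r) (2 ^ s)), R = opA 1 + 1 + dx := ⟨_, rfl⟩
  obtain ⟨R', hR'⟩ : ∃ R' : Module.End (ZMod 2) (Fn (2 ^ r) (2 ^ s)), R' = opB 1 + 1 + dy := ⟨_, rfl⟩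
  have hSe : S = (opB (-1) + 1) * dy + opB (-1) * R' := by
    have e1 : ((opB (-1) + 1) * dy + opB (-1) * R' : Module.End (ZMod 2) (Fn (2 ^ r) (2 ^ s))) =
        opB (-1) * opB 1 + opB (-1) + dy + (opB (-1) * dy + opB (-1) * dy) := by
      rw [hR']
      noncomm_ring
    rw [e1, hinv, dbl, add_zero, hS]
    abel
  have lS : Low S 2 := by
    rw [hSe]
    refine ladd _ _ 2 ?_ ?_
    · exact lmul _ _ 1 1 (lz (-1)).2.1 ldy
    · refine lmono _ (0 + 3) 2 (by norm_num) (lmul _ _ 0 3 (lz (-1)).2.2.2.1 ?_)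
      rw [hR']
      exact lB1
  have lR : Low R 3 := by
    rw [hR]
    exact lA1
  have hCe : (opC' + 1 + dx + dy : Module.End (ZMod 2) (Fn (2 ^ r) (2 ^ s))) =
      dx * dy + S + dx * S + R * opB (-1) := by
    have e1 : (dx * dy + S + dx * S + R * opB (-1) : Module.End (ZMod 2) (Fn (2 ^ r) (2 ^ s))) =
        opA 1 * opB (-1) + 1 + dx + dy + ((opB (-1) + opB (-1)) + (dx * opB (-1) + dx * opB (-1))
          + (dx * dy + dx * dy)) := by
      rw [hS, hR]
      noncomm_ring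
    rw [e1]
    simp only [dbl, add_zero]
    rfl
  have lC : Low (opC' + 1 + dx + dy : Module.End (ZMod 2) (Fn (2 ^ r) (2 ^ s))) 2 := by
    rw [hCe]
    refine ladd _ _ 2 (ladd _ _ 2 (ladd _ _ 2 ?_ lS) ?_) ?_
    · exact lmul _ _ 1 1 ldx ldy
    · exact lmono _ (1 + 2) 2 (by norm_num) (lmul _ _ 1 2 ldx lS)
    · exact lmono _ (3 + 0) 2 (by norm_num) (lmul _ _ 3 0 lR (lz (-1)).2.2.2.1)
  -- the leading forms
  obtain ⟨K, hK⟩ : ∃ K : Fn (2 ^ r) (2 ^ s), K = if be = 0 then 0 else bb al (be - 1) := ⟨_, rfl⟩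
  obtain ⟨F3, hF3⟩ : ∃ F3 : Fn (2 ^ r) (2 ^ s), F3 = bb (al - 1) be := ⟨_, rfl⟩
  have hF3W : F3 ∈ Wd ((al : ℤ) + be - 1) := by
    rw [hF3]
    have h := b1 (al - 1) be (by omega) hbe
    have e : (((al - 1 : ℕ) : ℤ) + be) = (al : ℤ) + be - 1 := by omega
    rw [e] at h
    exact h
  have hKW : K ∈ Wd ((al : ℤ) + be - 1) := by
    rw [hK]
    split_ifs with h0
    · exact Submodule.zero_mem _
    · have h := b1 al (be - 1) hal (by omega)
      have e : ((al : ℤ) + ((be - 1 : ℕ) : ℤ)) = (al : ℤ) + be - 1 := by omega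
      rw [e] at h
      exact h
  have hlead : dx K + dy F3 = 0 := by
    rw [hK, hF3]
    split_ifs with h0
    · subst h0
      rw [map_zero, zero_add]
      exact b5 (al - 1) (by omega)
    · have h1 := b2 (al - 1) (be - 1) (by omega) (by omega)
      have h2 := b3 (al - 1) (be - 1) (by omega) (by omega)
      rw [Nat.sub_add_cancel hal1] at h1
      rw [Nat.sub_add_cancel (Nat.one_le_iff_ne_zero.2 h0)] at h2
      rw [h1, h2]
      exact dbl _
  -- the error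
  obtain ⟨E, hE⟩ : ∃ E : Fn (2 ^ r) (2 ^ s),
      E = opA 1 (F3 + K) + (F3 + K) + (opC' F3 + F3) := ⟨_, rfl⟩
  have hEW : E ∈ Wd ((al : ℤ) + be - 3) := by
    have e1 : E = R (F3 + K) + (opC' + 1 + dx + dy : Module.End (ZMod 2) (Fn (2 ^ r) (2 ^ s))) F3 := by
      have e2 : R (F3 + K) + (opC' + 1 + dx + dy : Module.End (ZMod 2) (Fn (2 ^ r) (2 ^ s))) F3 =
          E + (dx K + dy F3) + (dx F3 + dx F3) := by
        rw [hE, hR]
        simp only [LinearMap.add_apply, Module.End.one_apply, map_add]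
        abel
      rw [e2, hlead, dbl, add_zero, add_zero]
    rw [e1]
    refine Submodule.add_mem _ ?_ ?_
    · have h := lR _ _ (Submodule.add_mem _ hF3W hKW)
      exact wmono _ _ (by linarith) h
    · have h := lC _ _ hF3W
      have e : (al : ℤ) + be - 1 - 2 = (al : ℤ) + be - 3 := by ring
      rw [e] at h
      exact h
  have hlt : (al : ℤ) + be - 3 < 2 ^ r + 2 ^ s - 2 := by
    have h1 : (al : ℤ) < 2 ^ r := by exact_mod_cast hal
    have h2 : (be : ℤ) < 2 ^ s := by exact_mod_cast hbe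
    linarith
  obtain ⟨H1, H3, hH1, hH3, hHE⟩ := hSur r s _ E hlt hEW
  have e : (al : ℤ) + be - 3 + 1 = (al : ℤ) + be - 2 := by ring
  rw [e] at hH1 hH3
  refine ⟨(F3 + K) + H1, F3 + H3, ?_, ?_, ?_⟩
  · have h1 : opA 1 ((F3 + K) + H1) + ((F3 + K) + H1) + (opC' (F3 + H3) + (F3 + H3)) = 0 := by
      have h2 : opA 1 ((F3 + K) + H1) + ((F3 + K) + H1) + (opC' (F3 + H3) + (F3 + H3)) =
          E + (opA 1 H1 + H1 + (opC' H3 + H3)) := by
        rw [hE]
        simp only [map_add]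
        abel
      rw [h2, hHE]
      exact dbl E
    intro x y
    have h3 := congrFun (congrFun h1 x) y
    change tA 1 ((F3 + K) + H1) x y + ((F3 + K) + H1) x y +
      (tA 1 (tB (-1) (F3 + H3)) x y + (F3 + H3) x y) = 0 at h3
    have h4 : ∀ a b c d : ZMod 2, a + b + (c + d) = 0 → a - b = c - d := by decide
    exact h4 _ _ _ _ h3
  · exact Submodule.add_mem _ (Submodule.add_mem _ hF3W hKW) (wmono _ _ (by linarith) hH1)
  · have h5 : (F3 + K) + H1 + (bb (al - 1) be + if be = 0 then 0 else bb al (be - 1)) = H1 := by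
      rw [← hK, ← hF3]
      have h6 : (F3 + K) + H1 + (F3 + K) = H1 + ((F3 + K) + (F3 + K)) := by abel
      rw [h6, dbl, add_zero]
    rw [h5]
    exact hH1

end Pool.Agent.Helper38.CV
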